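import Pool.Agent.Helper53.Pq.Goals
import Pool.Agent.Helper88.NO.D12

/-!
MP_705522_gt, packet MOM (campaign Pq of helper53): the moments of the law `mu (1/θ)`.
-/

set_option autoImplicit false

open MeasureTheory Set Filter Topology

noncomputable section

namespace Pool.Agent.Helper89.Pq

open Pool.Agent.Helper28.NO (mu muZ)
open Pool.Agent.Helper7.Proj (Zd)
open Pool.Agent.Helper88.NO
open Pool.Agent.Helper53.Pq

theorem zpow_w0 (q z : ℝ) (hz : 0 < z) (k : ℕ) :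
    w0 q z * z ^ k = z ^ (q - 2 + k) * Real.exp (-z ^ q) := by
  unfold w0
  rw [Real.rpow_add hz, Real.rpow_natCast]
  ring

theorem muZ_pow_int (q : ℝ) (hq : 2 < q) (k : ℕ) :
    Integrable (fun z : ℝ => z ^ k) (muZ q) := by
  unfold muZ
  rw [integrable_withDensity_iff_integrable_smul' (dens_meas q)
    (Eventually.of_forall fun _ => ENNReal.ofReal_lt_top)]
  have hk : (0 : ℝ) ≤ k := Nat.cast_nonneg k
  have h1 : IntegrableOn (fun z : ℝ => z ^ (q - 2 + k) * Real.exp (-z ^ q)) (Ioi 0) :=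
    integrableOn_rpow_mul_exp_neg_rpow (by linarith) (by linarith)
  refine IntegrableOn.congr_fun (h1.div_const (Zd q)) (fun z hz => ?_) measurableSet_Ioi
  simp only [smul_eq_mul]
  rw [ENNReal.toReal_ofReal, ← zpow_w0 q z hz k]
  · unfold w0
    ring
  · exact div_nonneg (w0_nonneg q z (le_of_lt hz)) (Zd_pos q hq).le

theorem Zd_gamma (θ : ℝ) (h0 : 0 < θ) (h1 : θ < 1 / 2) :
    1 / θ * Zd (1 / θ) = Real.Gamma (1 - θ) := by
  have hq0 : 0 < 1 / θ := by positivity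
  have hq : 2 < 1 / θ := by
    rw [lt_div_iff₀ h0]
    linarith
  have h2 : Zd (1 / θ) = (1 / (1 / θ)) * Real.Gamma ((1 / θ - 2 + 1) / (1 / θ)) :=
    integral_rpow_mul_exp_neg_rpow hq0 (by linarith)
  have h3 : (1 / θ - 2 + 1) / (1 / θ) = 1 - θ := by
    field_simp
    ring
  rw [h2, h3]
  field_simp

theorem muZ_moment (θ : ℝ) (h0 : 0 < θ) (h1 : θ < 1 / 2) (k : ℕ) :
    ∫ z, z ^ k ∂(muZ (1 / θ)) =
      Real.Gamma (1 + ((k : ℝ) - 1) * θ) / (1 / θ * Zd (1 / θ)) := by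
  have hq0 : 0 < 1 / θ := by positivity
  have hq : 2 < 1 / θ := by
    rw [lt_div_iff₀ h0]
    linarith
  have hk : (0 : ℝ) ≤ k := Nat.cast_nonneg k
  have hZ := Zd_pos (1 / θ) hq
  rw [int_muZ (1 / θ) hq]
  have h2 : ∫ z in Ioi (0 : ℝ), w0 (1 / θ) z / Zd (1 / θ) * z ^ k =
      ∫ z in Ioi (0 : ℝ), (z ^ (1 / θ - 2 + k) * Real.exp (-z ^ (1 / θ))) / Zd (1 / θ) := by
    refine setIntegral_congr_fun measurableSet_Ioi fun z hz => ?_
    show w0 (1 / θ) z / Zd (1 / θ) * z ^ k =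
      (z ^ (1 / θ - 2 + k) * Real.exp (-z ^ (1 / θ))) / Zd (1 / θ)
    rw [← zpow_w0 (1 / θ) z hz k]
    ring
  have h3 : (1 / θ - 2 + k + 1) / (1 / θ) = 1 + ((k : ℝ) - 1) * θ := by
    field_simp
    ring
  rw [h2, integral_div, integral_rpow_mul_exp_neg_rpow hq0 (by linarith), h3]
  field_simp

theorem gMom : GMom := by
  intro θ h0 h1 k hk
  have hq : 2 < 1 / θ := by
    rw [lt_div_iff₀ h0]
    linarith
  have hG := Zd_gamma θ h0 h1
  have hZ := Zd_pos (1 / θ) hq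
  have hc : 0 < 1 / θ * Zd (1 / θ) := by positivity
  have hme : Measurable (fun z : ℝ => 1 / θ * Zd (1 / θ) * z) := by fun_prop
  have hf : ∀ z : ℝ, (1 / θ * Zd (1 / θ) * z) ^ k = (1 / θ * Zd (1 / θ)) ^ k * z ^ k :=
    fun z => mul_pow _ _ _
  constructor
  · unfold mu
    rw [integrable_map_measure (by fun_prop) hme.aemeasurable]
    have := (muZ_pow_int (1 / θ) hq k).const_mul ((1 / θ * Zd (1 / θ)) ^ k)
    refine this.congr (Eventually.of_forall fun z => ?_)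
    simp only [Function.comp]
    rw [hf]
  · unfold mu
    rw [integral_map hme.aemeasurable (by fun_prop)]
    simp only [hf]
    rw [integral_const_mul, muZ_moment θ h0 h1 k, ← hG]
    obtain ⟨m, rfl⟩ : ∃ m, k = m + 1 := ⟨k - 1, by omega⟩
    have hne := hc.ne'
    rw [Nat.add_sub_cancel, pow_succ]
    field_simp

end Pool.Agent.Helper89.Pq
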